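import Pool.Agent.TH232.CR.Rows
import Pool.Agent.W832.HR.TriB

set_option autoImplicit false

/-! Cut rows of the critical path between two fixed ends. -/

namespace Pool.Agent.TH232.CR

open H978R2.Hex hiding Strip
open Pool.Agent.W818.TD (EBr hl la Wt M la_cons)
open Pool.Agent.W832.HR (Nbr Traj Z Strip SW opp nbr_iff)
open scoped ENNReal

/-- the number of cut rows in a window -/
noncomputable def NN (L : ℕ) (a w : ℕ) (l : List V) : ℕ :=
  Set.ncard {j : ℤ | a < j ∧ j ≤ a + w ∧ j < L ∧ CutL l j}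

theorem ebr_of {D : Set V} {L : ℕ} (hD : D ⊆ Strip L) {l : List V}
    (h : l ∈ Traj D (1, 0) (opp L)) :
    EBr ((0, 0) :: l) ∧ hl ((0, 0) :: l) = 2 * (L : ℤ) ∧
      ∀ a w : ℕ, NN L a w l ≤
        ((cuts ((0, 0) :: l) L).filter (fun j => (a : ℤ) < j ∧ j ≤ a + w)).card := by
  classical
  obtain ⟨h1, h2, h3, h4, h5⟩ := h
  have hne : l ≠ [] := by
    rintro rfl
    simp at h1
  have hlev : ∀ p ∈ l, 1 ≤ p.1 - p.2 ∧ p.1 - p.2 ≤ 2 * (L : ℤ) := fun p hp => hD (h5 p hp)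
  have hla : la ((0, 0) :: l) = opp L := by
    rw [la_cons hne]
    unfold la
    rw [List.getLastD_eq_getLast?, h2]
    rfl
  have hhl : hl ((0, 0) :: l) = 2 * (L : ℤ) := by
    unfold hl
    rw [hla]
    unfold opp
    push_cast
    ring
  refine ⟨⟨rfl, ?_, ?_, ?_, ?_, ?_⟩, hhl, ?_⟩
  · rw [List.isChain_cons]
    refine ⟨?_, h4.imp fun {a b} hab => nbr_iff.1 hab⟩
    intro y hy
    rw [h1, Option.mem_def, Option.some.injEq] at hy
    rw [← hy, adj_iff]
    simp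
  · rw [List.nodup_cons]
    refine ⟨fun h0 => ?_, h3⟩
    have := hlev _ h0
    simp at this
  · intro w hw
    exact (hlev w (by simpa using hw)).1
  · intro w hw
    rw [hhl]
    rcases List.mem_cons.1 hw with rfl | hw
    · simp only
      omega
    · exact (hlev w hw).2
  · rw [hhl]
    omega
  · intro a w
    unfold NN
    rw [← Set.ncard_coe_finset]
    apply Set.ncard_le_ncard _ (Finset.finite_toSet _)
    rintro j ⟨j1, j3, j2, i, i1, i2⟩
    rw [Finset.mem_coe, Finset.mem_filter]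
    unfold cuts
    rw [Finset.mem_filter, Finset.mem_Ioo]
    refine ⟨⟨⟨by omega, j2⟩, i + 1, ?_, ?_⟩, j1, j3⟩
    · intro w hw
      rw [List.take_succ_cons] at hw
      rcases List.mem_cons.1 hw with rfl | hw
      · simp only
        omega
      · exact i1 w hw
    · intro w hw
      rw [List.drop_succ_cons] at hw
      exact i2 w hw

theorem weight_eq {l : List V} (h : l ≠ []) : Pool.Agent.W832.HR.xc ^ (l.length - 1) =
    ENNReal.ofReal mu0 * Wt ((0, 0) :: l) := by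
  obtain ⟨a, t, rfl⟩ := List.exists_cons_of_ne_nil h
  have hmu := mu0_pos
  have hx : Pool.Agent.W832.HR.xc = ENNReal.ofReal (mu0⁻¹) := by
    unfold Pool.Agent.W832.HR.xc mu0
    rw [one_div]
  unfold Wt
  rw [hx, ← ENNReal.ofReal_pow (inv_pos.2 hmu).le, ← ENNReal.ofReal_mul hmu.le]
  congr 1
  simp only [List.length_cons, Nat.add_sub_cancel]
  rw [pow_succ]
  field_simp

theorem sum_le_M {D : Set V} {L : ℕ} (P : List V → Prop) (X : Set (List V))
    (hP : ∀ l ∈ Traj D (1, 0) (opp L), P l → (0, 0) :: l ∈ X) :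
    (∑' l : {l // l ∈ Traj D (1, 0) (opp L) ∧ P l}, Pool.Agent.W832.HR.xc ^ (l.1.length - 1)) ≤
      ENNReal.ofReal mu0 * M X := by
  have hne : ∀ l : {l // l ∈ Traj D (1, 0) (opp L) ∧ P l}, l.1 ≠ [] := by
    rintro ⟨l, h, -⟩ (h0 : l = [])
    have h1 := h.1
    rw [h0] at h1
    simp at h1
  calc (∑' l : {l // l ∈ Traj D (1, 0) (opp L) ∧ P l}, Pool.Agent.W832.HR.xc ^ (l.1.length - 1))
      = ∑' l : {l // l ∈ Traj D (1, 0) (opp L) ∧ P l},
          ENNReal.ofReal mu0 * Wt ((0, 0) :: l.1) := tsum_congr fun l => weight_eq (hne l)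
    _ = ENNReal.ofReal mu0 * ∑' l : {l // l ∈ Traj D (1, 0) (opp L) ∧ P l},
          Wt ((0, 0) :: l.1) := ENNReal.tsum_mul_left
    _ ≤ _ := by
        gcongr
        have hinj : Function.Injective (fun l : {l // l ∈ Traj D (1, 0) (opp L) ∧ P l} =>
            (⟨(0, 0) :: l.1, hP l.1 l.2.1 l.2.2⟩ : X)) := by
          intro l l' h
          apply Subtype.ext
          have := congrArg Subtype.val h
          simpa using this
        exact ENNReal.tsum_comp_le_tsum_of_injective hinj (fun t : X => Wt t)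

/-- **few cut rows in every window** -/
theorem final (ρ κ θ : ℝ) (hρ : 0 < ρ) (hκ : 0 < κ) (hθ : 177 / 200 < θ) (s : ℕ) :
    ∃ L0 : ℕ, ∀ L : ℕ, L0 ≤ L → ∀ D : Set V, SW L (ρ * L + 3) ⊆ D → D ⊆ Strip L →
    (∑' l : {l // l ∈ Traj D (1, 0) (opp L) ∧ ∃ a w : ℕ, a + w ≤ L ∧ (L : ℝ) ^ κ ≤ w ∧
        (w : ℝ) ^ θ ≤ (NN L a w l : ℝ)},
      Pool.Agent.W832.HR.xc ^ (l.1.length - 1)) / Z D (1, 0) (opp L) ≤
      ENNReal.ofReal (1 / (L : ℝ) ^ s) := by
  obtain ⟨C, hC1, hC⟩ := Pool.Agent.W832.HR.rect_poly ρ hρ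
  obtain ⟨L1, hL1⟩ := all_windows κ θ hκ hθ (C + s + 1)
  refine ⟨2 + L1, ?_⟩
  intro L hL D hD1 hD2
  have hL2 : 2 ≤ L := by omega
  have hLr : (2 : ℝ) ≤ L := by exact_mod_cast hL2
  have hL0 : (0 : ℝ) < L := by linarith
  have hmu := mu0_pos
  have hmu2 : mu0 ≤ 2 := by
    unfold mu0
    rw [Real.sqrt_le_left (by norm_num)]
    have : Real.sqrt 2 ≤ 2 := by
      rw [Real.sqrt_le_left (by norm_num)]
      norm_num
    linarith
  have hZ := (hC L hL2 D hD1 hD2).1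
  have hM := hL1 L (by omega)
  have hLC : (0 : ℝ) < 1 / (L : ℝ) ^ C := by positivity
  obtain ⟨X, hX⟩ : ∃ X : Set (List V), X = {β | EBr β ∧ hl β = 2 * (L : ℤ) ∧
      ∃ a w : ℕ, a + w ≤ L ∧ (L : ℝ) ^ κ ≤ w ∧
      (w : ℝ) ^ θ ≤ (((cuts β L).filter (fun j => (a : ℤ) < j ∧ j ≤ a + w)).card : ℝ)} :=
    ⟨_, rfl⟩
  rw [← hX] at hM
  have hmass := sum_le_M (D := D) (L := L) (fun l => ∃ a w : ℕ, a + w ≤ L ∧ (L : ℝ) ^ κ ≤ w ∧
        (w : ℝ) ^ θ ≤ (NN L a w l : ℝ)) X (by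
    intro l hl' hp
    obtain ⟨h1, h2, h3⟩ := ebr_of hD2 hl'
    obtain ⟨a, w, h4, h5, h6⟩ := hp
    rw [hX]
    exact ⟨h1, h2, a, w, h4, h5, h6.trans (by exact_mod_cast h3 a w)⟩)
  calc _ ≤ (ENNReal.ofReal mu0 * ENNReal.ofReal (1 / (L : ℝ) ^ (C + s + 1))) /
        ENNReal.ofReal (1 / (L : ℝ) ^ C) :=
        ENNReal.div_le_div (hmass.trans (mul_le_mul_right hM _)) hZ
    _ = ENNReal.ofReal (mu0 * (1 / (L : ℝ) ^ (C + s + 1)) / (1 / (L : ℝ) ^ C)) := by
        rw [ENNReal.ofReal_div_of_pos hLC, ENNReal.ofReal_mul hmu.le]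
    _ ≤ _ := by
        apply ENNReal.ofReal_le_ofReal
        have e1 : mu0 * (1 / (L : ℝ) ^ (C + s + 1)) / (1 / (L : ℝ) ^ C) =
            mu0 / L * (1 / (L : ℝ) ^ s) := by
          rw [pow_succ, pow_add]
          field_simp
        rw [e1]
        have e2 : mu0 / L ≤ 1 := by
          rw [div_le_one hL0]
          linarith
        exact mul_le_of_le_one_left (by positivity) e2

end Pool.Agent.TH232.CR
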