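import Pool.Agent.TH232.WX.CutC

set_option autoImplicit false

/-! Bridges with many cut rows: the moment method. -/

namespace Pool.Agent.TH232.CR

open H978R2.Hex
open Pool.Agent.W818.TD (EBr hl la Wt M la_mem M_le_of M_mono cat tr split_at hl_cat M_le_mul
  M_ind la_eq M_le_one la_append mem_tr tr_length)
open scoped ENNReal
open Finset

/-- the row line above the level `2 j` is crossed once -/
def CutL (β : List V) (j : ℤ) : Prop :=
  ∃ i : ℕ, (∀ w ∈ β.take i, w.1 - w.2 ≤ 2 * j) ∧ ∀ w ∈ β.drop i, 2 * j + 1 ≤ w.1 - w.2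

/-- splitting at a cut row -/
theorem split_cut {β : List V} (h : EBr β) {T j : ℤ} (hT : hl β = 2 * T) (hj0 : 0 ≤ j)
    (hjT : j < T) (hc : CutL β j) :
    ∃ β1 η, EBr β1 ∧ EBr η ∧ hl β1 = 2 * j ∧ hl η = 2 * (T - j) ∧ β = cat β1 η ∧
      ∀ i, j < i → CutL β i → CutL η (i - j) := by
  obtain ⟨i, h1, h2⟩ := hc
  set β1 := β.take i with hβ1
  set t := β.drop i with ht
  have hsplit : β = β1 ++ t := (List.take_append_drop i β).symm
  have hmem0 : (0, 0) ∈ β := by
    obtain ⟨s, hs⟩ := h.cons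
    rw [hs]
    exact List.mem_cons_self
  have hβ1ne : β1 ≠ [] := by
    intro h0
    rw [h0, List.nil_append] at hsplit
    have := h2 (0, 0) (by rw [← hsplit]; exact hmem0)
    simp only at this
    omega
  have htne : t ≠ [] := by
    intro h0
    rw [h0, List.append_nil] at hsplit
    have := h1 (la β) (by rw [← hsplit]; exact la_mem h.ne)
    unfold hl at hT
    omega
  obtain ⟨a, t', hat⟩ := List.exists_cons_of_ne_nil htne
  have hadj : Adj (la β1) a := by
    have hch := h.ch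
    rw [hsplit, List.isChain_append] at hch
    exact hch.2.2 (la β1) (by
      rw [Option.mem_def, List.getLast?_eq_getLast_of_ne_nil hβ1ne, la_eq hβ1ne]) a (by
      rw [hat]; rfl)
  have hla1 := h1 (la β1) (la_mem hβ1ne)
  have ha1 := h2 a (by rw [hat]; exact List.mem_cons_self)
  have hlev : (la β1).1 - (la β1).2 = 2 * j := by
    rw [adj_iff] at hadj
    omega
  have hE : EBr β1 := by
    refine ⟨?_, ?_, ?_, ?_, ?_, ?_⟩
    · have := h.hd
      rw [hsplit, List.head?_append] at this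
      obtain ⟨b, s, hb⟩ := List.exists_cons_of_ne_nil hβ1ne
      rw [hb] at this ⊢
      simpa using this
    · have hch := h.ch
      rw [hsplit, List.isChain_append] at hch
      exact hch.1
    · have hnd := h.nd
      rw [hsplit, List.nodup_append] at hnd
      exact hnd.1
    · intro w hw
      apply h.pos
      obtain ⟨b, s, hb⟩ := List.exists_cons_of_ne_nil hβ1ne
      rw [hb] at hw
      rw [hsplit, hb]
      simp only [List.tail_cons, List.cons_append] at hw ⊢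
      exact List.mem_append_left _ hw
    · intro w hw
      unfold hl
      rw [hlev]
      exact h1 w hw
    · unfold hl
      rw [hlev]
      omega
  have hhl1 : hl β1 = 2 * j := hlev
  obtain ⟨η, hη, hcat⟩ := split_at hE h hsplit (fun w hw => by
    have := h2 w hw
    omega)
  have hhl := hl_cat (β := β1) hη
  rw [← hcat] at hhl
  refine ⟨β1, η, hE, hη, hhl1, by omega, hcat, ?_⟩
  intro i' hi' hc'
  obtain ⟨k, k1, k2⟩ := hc'
  obtain ⟨s, hs⟩ := hη.cons
  have hβ : β = β1 ++ tr (la β1) s := by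
    rw [hcat]
    unfold cat
    rw [hs]
    rfl
  have hk : β1.length ≤ k := by
    by_contra hcon
    rw [not_le] at hcon
    have hmem : la β1 ∈ β.drop k := by
      rw [hsplit, List.drop_append_of_le_length (by omega)]
      apply List.mem_append_left
      rw [la_eq hβ1ne]
      have hne : β1.drop k ≠ [] := by
        intro h0
        have := congrArg List.length h0
        simp at this
        omega
      have := List.getLast_mem hne
      rw [List.getLast_drop] at this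
      exact this
    have := k2 _ hmem
    omega
  refine ⟨k - β1.length + 1, ?_, ?_⟩
  · intro w hw
    rw [hs, List.take_succ_cons] at hw
    rcases List.mem_cons.1 hw with rfl | hw
    · simp only
      omega
    · have h3 : w + la β1 ∈ β.take k := by
        rw [hβ, List.take_append, List.mem_append]
        right
        unfold tr
        rw [← List.map_take, List.mem_map]
        exact ⟨w, hw, rfl⟩
      have h4 := k1 _ h3
      simp only [Prod.fst_add, Prod.snd_add] at h4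
      omega
  · intro w hw
    rw [hs, List.drop_succ_cons] at hw
    have h3 : w + la β1 ∈ β.drop k := by
      rw [hβ, List.drop_append, List.mem_append]
      right
      unfold tr
      rw [← List.map_drop, List.mem_map]
      exact ⟨w, hw, rfl⟩
    have h4 := k2 _ h3
    simp only [Prod.fst_add, Prod.snd_add] at h4
    omega

open Classical in
/-- the cut rows -/
noncomputable def cuts (β : List V) (T : ℤ) : Finset ℤ := (Finset.Ioo 0 T).filter (CutL β)

/-- many small elements -/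
theorem many_small (C : Finset ℤ) (a b : ℕ) (h : a + b ≤ C.card) :
    b ≤ (C.filter (fun j => a ≤ (C.filter (fun i => j < i)).card)).card := by
  have h1 := Finset.card_filter_add_card_filter_not (s := C)
    (fun j => a ≤ (C.filter (fun i => j < i)).card)
  have h2 : (C.filter (fun j => ¬ a ≤ (C.filter (fun i => j < i)).card)).card ≤
      (Finset.range a).card := by
    apply Finset.card_le_card_of_injOn (fun j => (C.filter (fun i => j < i)).card)
    · intro j hj
      rw [Finset.mem_coe, Finset.mem_filter] at hj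
      rw [Finset.mem_coe, Finset.mem_range]
      exact not_le.1 hj.2
    · intro j hj j' hj' he
      rw [Finset.mem_coe, Finset.mem_filter] at hj hj'
      simp only at he
      have key : ∀ x y : ℤ, x ∈ C → y ∈ C → x < y →
          (C.filter (fun i => y < i)).card < (C.filter (fun i => x < i)).card := by
        intro x y _ hy hxy
        apply Finset.card_lt_card
        rw [Finset.ssubset_iff_subset_ne]
        constructor
        · intro i hi
          rw [Finset.mem_filter] at hi ⊢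
          exact ⟨hi.1, by omega⟩
        · intro heq
          have h3 : y ∈ C.filter (fun i => x < i) := Finset.mem_filter.2 ⟨hy, hxy⟩
          rw [← heq, Finset.mem_filter] at h3
          omega
      rcases lt_trichotomy j j' with h3 | h3 | h3
      · have := key j j' hj.1 hj'.1 h3
        omega
      · exact h3
      · have := key j' j hj'.1 hj.1 h3
        omega
  rw [Finset.card_range] at h2
  omega

/-- the bridges of height `T` with at least `m K` cut rows in the window `(a, a + w]` -/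
def SS (K m : ℕ) (T a w : ℤ) : Set (List V) :=
  {β | EBr β ∧ hl β = 2 * T ∧ m * K ≤ ((cuts β T).filter (fun j => a < j ∧ j ≤ a + w)).card}

/-- multiple covers -/
theorem M_mul_cover (I : Finset ℤ) (S' : ℤ → Set (List V)) (S : Set (List V)) (K : ℕ)
    (h : ∀ β ∈ S, ∃ J : Finset ℤ, J ⊆ I ∧ K ≤ J.card ∧ ∀ j ∈ J, β ∈ S' j) :
    (K : ℝ≥0∞) * M S ≤ ∑ j ∈ I, M (S' j) := by
  classical
  simp only [M_ind]
  rw [← Summable.tsum_finsetSum (fun _ _ => ENNReal.summable), ← ENNReal.tsum_mul_left]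
  refine ENNReal.tsum_le_tsum fun β => ?_
  by_cases hβ : β ∈ S
  · obtain ⟨J, h1, h2, h3⟩ := h β hβ
    rw [Set.indicator_of_mem hβ]
    calc (K : ℝ≥0∞) * Wt β ≤ (J.card : ℝ≥0∞) * Wt β := by
          gcongr
      _ = ∑ j ∈ J, (S' j).indicator Wt β := by
          rw [← nsmul_eq_mul, ← Finset.sum_const]
          refine Finset.sum_congr rfl fun j hj => ?_
          rw [Set.indicator_of_mem (h3 j hj)]
      _ ≤ _ := Finset.sum_le_sum_of_subset h1
  · rw [Set.indicator_of_notMem hβ, mul_zero]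
    exact zero_le

/-- the recursion -/
theorem step (K m : ℕ) (T a w : ℤ) :
    (K : ℝ≥0∞) * M (SS K (m + 1) T a w) ≤
      ∑ j ∈ Finset.Ioc a (a + w), M {β | EBr β ∧ hl β = 2 * j} * M (SS K m (T - j) 0 w) := by
  classical
  refine (M_mul_cover (Finset.Ioc a (a + w)) (fun j => {β | ∃ β1 ∈ {β | EBr β ∧ hl β = 2 * j},
    ∃ η ∈ SS K m (T - j) 0 w, β = cat β1 η}) (SS K (m + 1) T a w) K ?_).trans ?_
  · rintro β ⟨h1, h2, h3⟩
    set C := (cuts β T).filter (fun j => a < j ∧ j ≤ a + w) with hC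
    refine ⟨C.filter (fun j => m * K ≤ (C.filter (fun i => j < i)).card), ?_, ?_, ?_⟩
    · intro j hj
      rw [Finset.mem_filter, hC, Finset.mem_filter] at hj
      rw [Finset.mem_Ioc]
      exact hj.1.2
    · apply many_small
      rw [← Nat.succ_mul]
      exact h3
    · intro j hj
      rw [Finset.mem_filter] at hj
      obtain ⟨hj1, hj2⟩ := hj
      rw [hC, Finset.mem_filter] at hj1
      obtain ⟨hj1, hj3, hj4⟩ := hj1
      unfold cuts at hj1
      rw [Finset.mem_filter, Finset.mem_Ioo] at hj1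
      obtain ⟨β1, η, a1, a2, a3, a4, a5, a6⟩ := split_cut h1 h2 hj1.1.1.le hj1.1.2 hj1.2
      refine ⟨β1, ⟨a1, a3⟩, η, ⟨a2, a4, hj2.trans ?_⟩, a5⟩
      apply Finset.card_le_card_of_injOn (fun i => i - j)
      · intro i hi
        rw [Finset.mem_coe, Finset.mem_filter, hC, Finset.mem_filter] at hi
        obtain ⟨⟨hi1, hi3, hi4⟩, hi2⟩ := hi
        unfold cuts at hi1 ⊢
        rw [Finset.mem_filter, Finset.mem_Ioo] at hi1
        rw [Finset.mem_coe, Finset.mem_filter, Finset.mem_filter, Finset.mem_Ioo]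
        refine ⟨⟨⟨?_, ?_⟩, a6 i hi2 hi1.2⟩, ?_, ?_⟩ <;> (simp only; omega)
      · intro i _ i' _ he
        simp only at he
        omega
  · refine Finset.sum_le_sum fun j _ => ?_
    apply M_le_mul
    · intro β hβ
      exact hβ.1.ne
    · intro β hβ
      exact hβ.1.ne
    · rintro ζ ⟨β1, hβ1, η, hη, h⟩
      exact ⟨β1, hβ1, η, hη, h⟩

/-- the sum of the bridge masses -/
noncomputable def UU (w : ℤ) : ℝ≥0∞ := ∑ j ∈ Finset.Ioc 0 w, M {β | EBr β ∧ hl β = 2 * j}

/-- **many cut rows** -/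
theorem many_cuts (K : ℕ) (w : ℤ) (m : ℕ) : ∀ T : ℤ,
    (K : ℝ≥0∞) ^ m * M (SS K m T 0 w) ≤ UU w ^ m := by
  induction m with
  | zero =>
    intro T
    rw [pow_zero, pow_zero, one_mul]
    have hsub : SS K 0 T 0 w ⊆ {β | EBr β ∧ hl β = 2 * T} := fun β hβ => ⟨hβ.1, hβ.2.1⟩
    exact (M_mono hsub).trans (M_le_one (2 * T))
  | succ m ih =>
    intro T
    calc (K : ℝ≥0∞) ^ (m + 1) * M (SS K (m + 1) T 0 w)
        = (K : ℝ≥0∞) ^ m * ((K : ℝ≥0∞) * M (SS K (m + 1) T 0 w)) := by rw [pow_succ]; ring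
      _ ≤ (K : ℝ≥0∞) ^ m *
          ∑ j ∈ Finset.Ioc 0 (0 + w), M {β | EBr β ∧ hl β = 2 * j} * M (SS K m (T - j) 0 w) := by
          gcongr
          exact step K m T 0 w
      _ = ∑ j ∈ Finset.Ioc 0 w, M {β | EBr β ∧ hl β = 2 * j} *
          ((K : ℝ≥0∞) ^ m * M (SS K m (T - j) 0 w)) := by
          rw [Finset.mul_sum, zero_add]
          refine Finset.sum_congr rfl fun j _ => by ring
      _ ≤ ∑ j ∈ Finset.Ioc 0 w, M {β | EBr β ∧ hl β = 2 * j} * UU w ^ m := by
          refine Finset.sum_le_sum fun j _ => ?_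
          gcongr
          exact ih (T - j)
      _ = UU w ^ (m + 1) := by
          rw [← Finset.sum_mul, pow_succ']
          rfl

/-- many cut rows in a window -/
theorem many_window (K : ℕ) (a : ℤ) (w : ℕ) (m : ℕ) (T : ℤ) :
    (K : ℝ≥0∞) ^ (m + 1) * M (SS K (m + 1) T a w) ≤ w * UU w ^ m := by
  calc (K : ℝ≥0∞) ^ (m + 1) * M (SS K (m + 1) T a w)
      = (K : ℝ≥0∞) ^ m * ((K : ℝ≥0∞) * M (SS K (m + 1) T a w)) := by rw [pow_succ]; ring
    _ ≤ (K : ℝ≥0∞) ^ m * ∑ j ∈ Finset.Ioc a (a + w),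
        M {β | EBr β ∧ hl β = 2 * j} * M (SS K m (T - j) 0 w) := by
        gcongr
        exact step K m T a w
    _ = ∑ j ∈ Finset.Ioc a (a + w), M {β | EBr β ∧ hl β = 2 * j} *
        ((K : ℝ≥0∞) ^ m * M (SS K m (T - j) 0 w)) := by
        rw [Finset.mul_sum]
        refine Finset.sum_congr rfl fun j _ => by ring
    _ ≤ ∑ _j ∈ Finset.Ioc a (a + w), 1 * UU w ^ m := by
        refine Finset.sum_le_sum fun j _ => ?_
        gcongr
        · exact M_le_one (2 * j)
        · exact many_cuts K w m (T - j)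
    _ = w * UU w ^ m := by
        rw [Finset.sum_const, Int.card_Ioc, nsmul_eq_mul, one_mul]
        congr 2
        omega

/-- the sum of the bridge masses is at most `8 w^(0.885)` -/
theorem UU_le (w : ℕ) : UU (w : ℤ) ≤ ENNReal.ofReal (8 * (w : ℝ) ^ ((177 : ℝ) / 200)) := by
  unfold UU
  have h1 : ∑ j ∈ Finset.Ioc 0 (w : ℤ), M {β | EBr β ∧ hl β = 2 * j} ≤
      ∑ n ∈ Finset.range w, ENNReal.ofReal (13 / 2 * ((n : ℝ) + 1) ^ ((177 : ℝ) / 200 - 1)) := by
    have h2 : ∑ j ∈ Finset.Ioc 0 (w : ℤ), M {β | EBr β ∧ hl β = 2 * j} ≤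
        ∑ j ∈ (Finset.range w).image (fun n : ℕ => (n : ℤ) + 1),
          ENNReal.ofReal (13 / 2 * ((j : ℤ) : ℝ) ^ ((177 : ℝ) / 200 - 1)) := by
      refine (Finset.sum_le_sum fun j hj => ?_).trans (Finset.sum_le_sum_of_subset ?_)
      · rw [Finset.mem_Ioc] at hj
        have := Pool.Agent.TH232.WX.M_bridge j (by omega)
        norm_num at this ⊢
        exact this
      · intro j hj
        rw [Finset.mem_Ioc] at hj
        rw [Finset.mem_image]
        exact ⟨(j - 1).toNat, by rw [Finset.mem_range]; omega, by omega⟩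
    refine h2.trans (le_of_eq ?_)
    rw [Finset.sum_image (by intro a _ b _ h; simpa using h)]
    refine Finset.sum_congr rfl fun n _ => ?_
    push_cast
    rfl
  refine h1.trans ?_
  rw [← ENNReal.ofReal_sum_of_nonneg (fun n _ => by positivity)]
  apply ENNReal.ofReal_le_ofReal
  rw [← Finset.mul_sum]
  have h3 := Pool.Agent.TH232.WX.Cut.sum_rpow (177 / 200) (by norm_num) (by norm_num) w
  have h4 : (0 : ℝ) ≤ (w : ℝ) ^ ((177 : ℝ) / 200) := by positivity
  have h5 : (w : ℝ) ^ ((177 : ℝ) / 200) / (177 / 200) ≤ 16 / 13 * (w : ℝ) ^ ((177 : ℝ) / 200) := by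
    rw [div_le_iff₀ (by norm_num)]
    nlinarith
  linarith

/-- the mass of the bridges with many cut rows in a window -/
theorem window_mass (K : ℕ) (hK : 1 ≤ K) (a : ℤ) (w : ℕ) (m : ℕ) (T : ℤ) :
    M (SS K (m + 1) T a w) ≤
      ENNReal.ofReal (w * (8 * (w : ℝ) ^ ((177 : ℝ) / 200)) ^ m / (K : ℝ) ^ (m + 1)) := by
  have hKpos : (0 : ℝ) < K := by exact_mod_cast hK
  have h1 := many_window K a w m T
  have h2 : (w : ℝ≥0∞) * UU (w : ℤ) ^ m ≤
      ENNReal.ofReal (w * (8 * (w : ℝ) ^ ((177 : ℝ) / 200)) ^ m) := by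
    rw [ENNReal.ofReal_mul (Nat.cast_nonneg _), ENNReal.ofReal_natCast,
      ENNReal.ofReal_pow (by positivity)]
    gcongr
    exact UU_le w
  have h3 := h1.trans h2
  rw [ENNReal.ofReal_div_of_pos (by positivity), ENNReal.ofReal_pow hKpos.le,
    ENNReal.ofReal_natCast, ENNReal.le_div_iff_mul_le]
  · rw [mul_comm]
    exact h3
  · left
    have : (K : ℝ≥0∞) ≠ 0 := by
      have : K ≠ 0 := by omega
      exact_mod_cast this
    exact pow_ne_zero _ this
  · left
    exact ENNReal.pow_ne_top (ENNReal.natCast_ne_top _)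

/-- all windows -/
theorem all_windows (κ θ : ℝ) (hκ : 0 < κ) (hθ : 177 / 200 < θ) (s : ℕ) : ∃ L0 : ℕ,
    ∀ L : ℕ, L0 ≤ L →
    M {β | EBr β ∧ hl β = 2 * (L : ℤ) ∧ ∃ a w : ℕ, a + w ≤ L ∧ (L : ℝ) ^ κ ≤ w ∧
      (w : ℝ) ^ θ ≤ (((cuts β L).filter (fun j => (a : ℤ) < j ∧ j ≤ a + w)).card : ℝ)} ≤
      ENNReal.ofReal (1 / (L : ℝ) ^ s) := by
  classical
  have hd : 0 < θ - 177 / 200 := by linarith
  obtain ⟨m, hm⟩ : ∃ m : ℕ, m = ⌈(((s : ℝ) + 3) / κ + 1) / (θ - 177 / 200)⌉₊ := ⟨_, rfl⟩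
  have hm1 : ((s : ℝ) + 3) / κ + 1 ≤ m * (θ - 177 / 200) := by
    rw [← div_le_iff₀ hd, hm]
    exact Nat.le_ceil _
  obtain ⟨A, hA⟩ : ∃ A : ℝ, A = (16 * ((m : ℝ) + 1)) ^ (m + 1) := ⟨_, rfl⟩
  have hA0 : 0 ≤ A := by rw [hA]; positivity
  obtain ⟨B, hB⟩ : ∃ B : ℝ, B = (2 * ((m : ℝ) + 1)) ^ (2 / κ) := ⟨_, rfl⟩
  have hB0 : 0 ≤ B := by rw [hB]; positivity
  refine ⟨2 + ⌈4 * A⌉₊ + ⌈B⌉₊, ?_⟩
  intro L hL
  have hL2 : 2 ≤ L := by omega
  have hLr : (2 : ℝ) ≤ L := by exact_mod_cast hL2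
  have hL0 : (0 : ℝ) < L := by linarith
  have hLA : 4 * A ≤ L := by
    have h1 : 4 * A ≤ (⌈4 * A⌉₊ : ℝ) := Nat.le_ceil _
    have h2 : ((⌈4 * A⌉₊ : ℕ) : ℝ) ≤ L := by
      have : ⌈4 * A⌉₊ ≤ L := by omega
      exact_mod_cast this
    linarith
  have hLB : B ≤ L := by
    have h1 : B ≤ (⌈B⌉₊ : ℝ) := Nat.le_ceil _
    have h2 : ((⌈B⌉₊ : ℕ) : ℝ) ≤ L := by
      have : ⌈B⌉₊ ≤ L := by omega
      exact_mod_cast this
    linarith
  have hmr : (0 : ℝ) ≤ m := Nat.cast_nonneg _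
  -- one window
  have key : ∀ a w : ℕ, (L : ℝ) ^ κ ≤ w →
      M {β | EBr β ∧ hl β = 2 * (L : ℤ) ∧
        (w : ℝ) ^ θ ≤ (((cuts β L).filter (fun j => (a : ℤ) < j ∧ j ≤ a + w)).card : ℝ)} ≤
      ENNReal.ofReal (A * (L : ℝ) ^ (-((s : ℝ) + 3))) := by
    intro a w hw
    have hLκ : 1 ≤ (L : ℝ) ^ κ := Real.one_le_rpow (by linarith) hκ.le
    have hw1 : (1 : ℝ) ≤ w := hLκ.trans hw
    have hw0 : (0 : ℝ) < w := by linarith
    have hwθ : 0 < (w : ℝ) ^ θ := Real.rpow_pos_of_pos hw0 θ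
    have hwm : 2 * ((m : ℝ) + 1) ≤ (w : ℝ) ^ θ := by
      have h1 : (2 * ((m : ℝ) + 1)) = (B ^ κ) ^ ((1 : ℝ) / 2) := by
        rw [hB, ← Real.rpow_mul (by positivity), ← Real.rpow_mul (by positivity)]
        have : 2 / κ * (κ * (1 / 2)) = 1 := by field_simp
        rw [this, Real.rpow_one]
      rw [h1]
      calc (B ^ κ) ^ ((1 : ℝ) / 2) ≤ ((L : ℝ) ^ κ) ^ ((1 : ℝ) / 2) :=
            Real.rpow_le_rpow (by positivity) (Real.rpow_le_rpow hB0 hLB hκ.le) (by norm_num)
        _ ≤ (w : ℝ) ^ ((1 : ℝ) / 2) := Real.rpow_le_rpow (by positivity) hw (by norm_num)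
        _ ≤ (w : ℝ) ^ θ := Real.rpow_le_rpow_of_exponent_le hw1 (by linarith)
    obtain ⟨K, hK⟩ : ∃ K : ℕ, K = ⌊(w : ℝ) ^ θ / ((m : ℝ) + 1)⌋₊ := ⟨_, rfl⟩
    have hx2 : 2 ≤ (w : ℝ) ^ θ / ((m : ℝ) + 1) := by
      rw [le_div_iff₀ (by linarith)]
      exact hwm
    have hK1 : (K : ℝ) ≤ (w : ℝ) ^ θ / ((m : ℝ) + 1) := by
      rw [hK]
      exact Nat.floor_le (by positivity)
    have hK2 : (w : ℝ) ^ θ / (2 * ((m : ℝ) + 1)) ≤ K := by
      have h1 : (w : ℝ) ^ θ / ((m : ℝ) + 1) < K + 1 := by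
        rw [hK]
        exact Nat.lt_floor_add_one _
      have h2 : (w : ℝ) ^ θ / (2 * ((m : ℝ) + 1)) = (w : ℝ) ^ θ / ((m : ℝ) + 1) / 2 := by
        field_simp
      rw [h2]
      linarith
    have hKpos : (0 : ℝ) < K := lt_of_lt_of_le (by positivity) hK2
    have hKn : 1 ≤ K := by
      have : 0 < K := by exact_mod_cast hKpos
      omega
    have hsub : {β | EBr β ∧ hl β = 2 * (L : ℤ) ∧
        (w : ℝ) ^ θ ≤ (((cuts β L).filter (fun j => (a : ℤ) < j ∧ j ≤ a + w)).card : ℝ)} ⊆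
        SS K (m + 1) L a w := by
      rintro β ⟨h1, h2, h3⟩
      refine ⟨h1, h2, ?_⟩
      have h4 : ((m : ℝ) + 1) * K ≤ (w : ℝ) ^ θ := by
        rw [le_div_iff₀ (by linarith)] at hK1
        linarith
      have h5 := h4.trans h3
      exact_mod_cast h5
    refine (M_mono hsub).trans ((window_mass K hKn a w m L).trans ?_)
    apply ENNReal.ofReal_le_ofReal
    have e2 : 8 * (w : ℝ) ^ ((177 : ℝ) / 200) / K ≤
        16 * ((m : ℝ) + 1) * (w : ℝ) ^ ((177 : ℝ) / 200 - θ) := by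
      rw [div_le_iff₀ hKpos, Real.rpow_sub hw0]
      calc 8 * (w : ℝ) ^ ((177 : ℝ) / 200) =
          16 * ((m : ℝ) + 1) * ((w : ℝ) ^ ((177 : ℝ) / 200) / (w : ℝ) ^ θ) *
            ((w : ℝ) ^ θ / (2 * ((m : ℝ) + 1))) := by
            field_simp
            ring
        _ ≤ _ := by
            apply mul_le_mul_of_nonneg_left hK2
            positivity
    have e3 : (w : ℝ) / K ≤ 16 * ((m : ℝ) + 1) * w := by
      rw [div_le_iff₀ hKpos]
      have hK3 : (1 : ℝ) ≤ K := by exact_mod_cast hKn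
      have h1 : (w : ℝ) ≤ w * K := le_mul_of_one_le_right hw0.le hK3
      have h2 : w * K ≤ 16 * ((m : ℝ) + 1) * (w * K) :=
        le_mul_of_one_le_left (by positivity) (by linarith)
      linarith
    calc (w : ℝ) * (8 * (w : ℝ) ^ ((177 : ℝ) / 200)) ^ m / (K : ℝ) ^ (m + 1)
        = (w / K) * (8 * (w : ℝ) ^ ((177 : ℝ) / 200) / K) ^ m := by
          rw [div_pow, pow_succ]
          field_simp
      _ ≤ (16 * ((m : ℝ) + 1) * w) *
          (16 * ((m : ℝ) + 1) * (w : ℝ) ^ ((177 : ℝ) / 200 - θ)) ^ m := by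
          gcongr
      _ = A * (w : ℝ) ^ (((177 : ℝ) / 200 - θ) * m + 1) := by
          rw [mul_pow, ← Real.rpow_natCast ((w : ℝ) ^ ((177 : ℝ) / 200 - θ)),
            ← Real.rpow_mul hw0.le, Real.rpow_add hw0, Real.rpow_one, hA, pow_succ]
          ring
      _ ≤ A * (w : ℝ) ^ (-(((s : ℝ) + 3) / κ)) := by
          apply mul_le_mul_of_nonneg_left _ hA0
          apply Real.rpow_le_rpow_of_exponent_le hw1
          linarith
      _ ≤ A * (L : ℝ) ^ (-((s : ℝ) + 3)) := by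
          apply mul_le_mul_of_nonneg_left _ hA0
          have h1 : (L : ℝ) ^ (-((s : ℝ) + 3)) = ((L : ℝ) ^ κ) ^ (-(((s : ℝ) + 3) / κ)) := by
            rw [← Real.rpow_mul hL0.le]
            congr 1
            field_simp
          rw [h1]
          apply Real.rpow_le_rpow_of_nonpos (by positivity) hw
          have : 0 ≤ ((s : ℝ) + 3) / κ := by positivity
          linarith
  -- union
  set I : Finset (ℕ × ℕ) := (Finset.range (L + 1) ×ˢ Finset.range (L + 1)).filter
    (fun q => (L : ℝ) ^ κ ≤ q.2) with hI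
  have hunion : M {β | EBr β ∧ hl β = 2 * (L : ℤ) ∧ ∃ a w : ℕ, a + w ≤ L ∧ (L : ℝ) ^ κ ≤ w ∧
      (w : ℝ) ^ θ ≤ (((cuts β L).filter (fun j => (a : ℤ) < j ∧ j ≤ a + w)).card : ℝ)} ≤
      ∑ q ∈ I, M {β | EBr β ∧ hl β = 2 * (L : ℤ) ∧
        (q.2 : ℝ) ^ θ ≤ (((cuts β L).filter (fun j => (q.1 : ℤ) < j ∧ j ≤ q.1 + q.2)).card : ℝ)} := by
    simp only [M_ind]
    rw [← Summable.tsum_finsetSum (fun _ _ => ENNReal.summable)]
    refine ENNReal.tsum_le_tsum fun β => ?_
    by_cases h : β ∈ {β | EBr β ∧ hl β = 2 * (L : ℤ) ∧ ∃ a w : ℕ, a + w ≤ L ∧ (L : ℝ) ^ κ ≤ w ∧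
      (w : ℝ) ^ θ ≤ (((cuts β L).filter (fun j => (a : ℤ) < j ∧ j ≤ a + w)).card : ℝ)}
    · rw [Set.indicator_of_mem h]
      obtain ⟨h1, h2, a, w, h3, h4, h5⟩ := h
      have hq : (a, w) ∈ I := by
        rw [hI, Finset.mem_filter, Finset.mem_product, Finset.mem_range, Finset.mem_range]
        exact ⟨⟨by simp only; omega, by simp only; omega⟩, h4⟩
      refine le_trans ?_ (Finset.single_le_sum (fun _ _ => zero_le) hq)
      rw [Set.indicator_of_mem]
      exact ⟨h1, h2, h5⟩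
    · rw [Set.indicator_of_notMem h]
      exact zero_le
  refine hunion.trans ((Finset.sum_le_sum fun q hq => key q.1 q.2 ?_).trans ?_)
  · rw [hI, Finset.mem_filter] at hq
    exact hq.2
  rw [Finset.sum_const, nsmul_eq_mul, ← ENNReal.ofReal_natCast,
    ← ENNReal.ofReal_mul (Nat.cast_nonneg _)]
  apply ENNReal.ofReal_le_ofReal
  have hcard : (I.card : ℝ) ≤ 4 * (L : ℝ) ^ 2 := by
    have h1 : I.card ≤ (L + 1) * (L + 1) := by
      rw [hI]
      refine (Finset.card_filter_le _ _).trans (le_of_eq ?_)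
      rw [Finset.card_product, Finset.card_range]
    have h2 : (I.card : ℝ) ≤ ((L : ℝ) + 1) * ((L : ℝ) + 1) := by exact_mod_cast h1
    nlinarith
  have hLs : (0 : ℝ) < (L : ℝ) ^ (-((s : ℝ) + 3)) := Real.rpow_pos_of_pos hL0 _
  have e4 : (L : ℝ) ^ (-((s : ℝ) + 3)) = 1 / (L : ℝ) ^ s / (L : ℝ) ^ 3 := by
    have : -((s : ℝ) + 3) = -(((s + 3 : ℕ) : ℝ)) := by push_cast; ring
    rw [this, Real.rpow_neg hL0.le, Real.rpow_natCast, pow_add]
    field_simp
  calc (I.card : ℝ) * (A * (L : ℝ) ^ (-((s : ℝ) + 3)))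
      ≤ (4 * (L : ℝ) ^ 2) * (A * (L : ℝ) ^ (-((s : ℝ) + 3))) := by
        apply mul_le_mul_of_nonneg_right hcard
        positivity
    _ = (4 * A) * (L : ℝ) ^ 2 * (1 / (L : ℝ) ^ s / (L : ℝ) ^ 3) := by rw [e4]; ring
    _ ≤ L * (L : ℝ) ^ 2 * (1 / (L : ℝ) ^ s / (L : ℝ) ^ 3) := by gcongr
    _ = 1 / (L : ℝ) ^ s := by field_simp

end Pool.Agent.TH232.CR
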